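import Pool.Agent.Y942.ET.Bound

/-!
# MP_7ff8c4_co, question Q1: every `t`, with an explicit bound on the clique-width

For every `t ≥ 1`, every `E_t`-free chordal bipartite graph has clique-width at most
`2 ^ 2 ^ (80 t + 38)`. So the class is of bounded clique-width for all `t ≥ 1` and the bound grows
at most double exponentially in `t`.
-/

set_option autoImplicit false

namespace Pool.Agent.Results.MP_7ff8c4_co.ExplicitBound

open Pool.Agent.H73R2.Et Pool.Agent.H175R2 Pool.Agent.Y942.ET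

theorem width_le (t : ℕ) : 3 * (max (Kt t) 2 + 1) ≤ 2 ^ 2 ^ (80 * t + 38) := by
  have h1 : t < 2 ^ t := Nat.lt_two_pow_self
  have h2 : 2 ^ t ≤ 2 ^ (20 * t) := Nat.pow_le_pow_right (by norm_num) (by omega)
  have h3 : 1 ≤ 2 ^ (20 * t) := Nat.one_le_two_pow
  have hD : 1 + Dt t ≤ 2 ^ (20 * t + 9) := by
    unfold Dt
    have e1 : 2 * (10 * t + 3) + 1 = 20 * t + 7 := by ring
    rw [e1, pow_add, pow_add]
    omega
  have hx : 2 * (1 + Dt t) ^ 4 ≤ 2 ^ (80 * t + 37) := by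
    calc 2 * (1 + Dt t) ^ 4 ≤ 2 * (2 ^ (20 * t + 9)) ^ 4 :=
          Nat.mul_le_mul_left _ (Nat.pow_le_pow_left hD 4)
      _ = 2 ^ (80 * t + 37) := by
          rw [← pow_mul, ← pow_succ']
          congr 1
          ring
  have hK : Kt t ≤ 2 ^ 2 ^ (80 * t + 37) + 2 ^ (80 * t + 37) := by
    unfold Kt
    exact Nat.add_le_add (Nat.pow_le_pow_right (by norm_num) hx) hx
  set y := 2 ^ (80 * t + 37) with hy
  have hy2 : 2 ^ (80 * t + 38) = y + y := by rw [hy, pow_succ]; ring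
  have hy0 : 4 ≤ y := by
    rw [hy]
    calc 4 = 2 ^ 2 := by norm_num
      _ ≤ 2 ^ (80 * t + 37) := Nat.pow_le_pow_right (by norm_num) (by omega)
  have hyy : y < 2 ^ y := Nat.lt_two_pow_self
  have h16 : 16 ≤ 2 ^ y := by
    calc 16 = 2 ^ 4 := by norm_num
      _ ≤ 2 ^ y := Nat.pow_le_pow_right (by norm_num) hy0
  rw [hy2, pow_add]
  have h5 : max (Kt t) 2 + 1 ≤ 2 * 2 ^ y + 3 := by
    rcases max_cases (Kt t) 2 with h | h <;> omega
  nlinarith

/-- Every `E_t`-free chordal bipartite graph, `t ≥ 1`, has clique-width at most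
`2 ^ 2 ^ (80 t + 38)`. -/
theorem result : ∀ t : ℕ, 1 ≤ t → ∀ (V : Type) [Finite V] (G : SimpleGraph V),
    IsChordalBipartite G → ¬ (E t).IsIndContained G → cliqueWidth G ≤ 2 ^ 2 ^ (80 * t + 38) :=
  fun t ht V _ G hG hE => (mainq t ht V G hG hE).trans (width_le t)

end Pool.Agent.Results.MP_7ff8c4_co.ExplicitBound
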